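import Pool.Agent.CatP.Two.Defs

/-! In characteristic two the minor of the `(1,3)` catalecticant with twelve different letters is
not in the ideal of `3 x 3` minors of the `(2,2)` catalecticant. -/

namespace Pool.Agent.CatP.Two

open MvPolynomial Pool.Agent.H91.Cat

/-- The number of inversions between two vectors. -/
def inv12 (g g' : Fin 12 → ℕ) : ℕ := ∑ x, ∑ y, if y < x then g x * g' y else 0

theorem inv12_add_left (g h g' : Fin 12 → ℕ) :
    inv12 (fun x => g x + h x) g' = inv12 g g' + inv12 h g' := by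
  simp only [inv12, ← Finset.sum_add_distrib]
  refine Finset.sum_congr rfl fun x _ => Finset.sum_congr rfl fun y _ => ?_
  split_ifs <;> ring

theorem inv12_add_right (g h g' : Fin 12 → ℕ) :
    inv12 g' (fun x => g x + h x) = inv12 g' g + inv12 g' h := by
  simp only [inv12, ← Finset.sum_add_distrib]
  refine Finset.sum_congr rfl fun x _ => Finset.sum_congr rfl fun y _ => ?_
  split_ifs <;> ring

theorem inv12_swap (g g' : Fin 12 → ℕ) (h : ∀ x, g x * g' x = 0) :
    inv12 g g' + inv12 g' g = (∑ x, g x) * ∑ y, g' y := by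
  have h1 : inv12 g' g = ∑ x, ∑ y, if x < y then g x * g' y else 0 := by
    rw [inv12, Finset.sum_comm]
    refine Finset.sum_congr rfl fun x _ => Finset.sum_congr rfl fun y _ => ?_
    split_ifs <;> ring
  rw [h1, inv12, ← Finset.sum_add_distrib, Finset.sum_mul_sum]
  refine Finset.sum_congr rfl fun x _ => ?_
  rw [← Finset.sum_add_distrib]
  refine Finset.sum_congr rfl fun y _ => ?_
  rcases lt_trichotomy x y with h2 | h2 | h2
  · rw [if_neg (not_lt.2 h2.le), if_pos h2, zero_add]
  · subst h2
    rw [if_neg (lt_irrefl _), h x]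
  · rw [if_pos h2, if_neg (not_lt.2 h2.le), add_zero]

/-- The total number of inversions of three vectors. -/
def eps3 (g1 g2 g3 : Fin 12 → ℕ) : ℕ := inv12 g1 g2 + inv12 g1 g3 + inv12 g2 g3

/-- The three vectors add up to the vector with all entries one. -/
def Full (g1 g2 g3 : Fin 12 → ℕ) : Prop := ∀ x, g1 x + g2 x + g3 x = 1

theorem mul_zero_of_add_le {a b : ℕ} (h : a + b ≤ 1) : a * b = 0 := by
  rcases Nat.eq_zero_or_pos a with h1 | h1
  · rw [h1, zero_mul]
  · have : b = 0 := by omega
    rw [this, mul_zero]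

theorem Full.swap {g1 g2 g3 : Expo 12 4} (h : Full g1.1 g2.1 g3.1) :
    inv12 g1.1 g2.1 + inv12 g2.1 g1.1 = 16 ∧ inv12 g1.1 g3.1 + inv12 g3.1 g1.1 = 16 ∧
      inv12 g2.1 g3.1 + inv12 g3.1 g2.1 = 16 := by
  refine ⟨?_, ?_, ?_⟩
  · rw [inv12_swap _ _ fun x => mul_zero_of_add_le (by have := h x; omega), g1.2, g2.2]
  · rw [inv12_swap _ _ fun x => mul_zero_of_add_le (by have := h x; omega), g1.2, g3.2]
  · rw [inv12_swap _ _ fun x => mul_zero_of_add_le (by have := h x; omega), g2.2, g3.2]

theorem ne_of_add_le {g1 g2 : Expo 12 4} (h : ∀ x, g1.1 x + g2.1 x ≤ 1) : g1 ≠ g2 := by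
  intro h1
  subst h1
  have h2 : ∑ x, g1.1 x = 0 := Finset.sum_eq_zero fun x _ => by have := h x; omega
  have h3 := g1.2
  omega

theorem mem_of_eq {g1 g2 g3 t1 t2 t3 : Expo 12 4}
    (h : (Finsupp.single g1 1 + Finsupp.single g2 1 + Finsupp.single g3 1 : Expo 12 4 →₀ ℕ) =
      Finsupp.single t1 1 + Finsupp.single t2 1 + Finsupp.single t3 1) (t : Expo 12 4)
    (ht : t = t1 ∨ t = t2 ∨ t = t3) : t = g1 ∨ t = g2 ∨ t = g3 := by
  classical
  have h1 := DFunLike.congr_fun h t
  simp only [Finsupp.add_apply, Finsupp.single_apply] at h1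
  by_contra hcon
  push Not at hcon
  rw [if_neg (Ne.symm hcon.1), if_neg (Ne.symm hcon.2.1), if_neg (Ne.symm hcon.2.2)] at h1
  rcases ht with ht | ht | ht
  · rw [if_pos ht.symm] at h1
    omega
  · rw [if_pos ht.symm] at h1
    omega
  · rw [if_pos ht.symm] at h1
    omega

theorem full_of_eq {g1 g2 g3 t1 t2 t3 : Expo 12 4}
    (h : (Finsupp.single g1 1 + Finsupp.single g2 1 + Finsupp.single g3 1 : Expo 12 4 →₀ ℕ) =
      Finsupp.single t1 1 + Finsupp.single t2 1 + Finsupp.single t3 1)
    (ht : Full t1.1 t2.1 t3.1) :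
    Full g1.1 g2.1 g3.1 ∧ eps3 t1.1 t2.1 t3.1 % 2 = eps3 g1.1 g2.1 g3.1 % 2 := by
  obtain ⟨s12, s13, s23⟩ := ht.swap
  have n12 : t1 ≠ t2 := ne_of_add_le fun x => by have := ht x; omega
  have n13 : t1 ≠ t3 := ne_of_add_le fun x => by have := ht x; omega
  have n23 : t2 ≠ t3 := ne_of_add_le fun x => by have := ht x; omega
  have m1 := mem_of_eq h t1 (Or.inl rfl)
  have m2 := mem_of_eq h t2 (Or.inr (Or.inl rfl))
  have m3 := mem_of_eq h t3 (Or.inr (Or.inr rfl))
  unfold eps3
  rcases m1 with m1 | m1 | m1 <;> rcases m2 with m2 | m2 | m2 <;>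
    rcases m3 with m3 | m3 | m3 <;>
    first
      | exact absurd (m1.trans m2.symm) n12
      | exact absurd (m1.trans m3.symm) n13
      | exact absurd (m2.trans m3.symm) n23
      | (subst m1 m2 m3
         refine ⟨fun x => ?_, ?_⟩
         · have := ht x
           omega
         · omega)

open Classical in
/-- The values of the functional on monomials. -/
noncomputable def wval (k : Type*) [Field k] (m : Expo 12 4 →₀ ℕ) : k :=
  if h : ∃ t : Expo 12 4 × Expo 12 4 × Expo 12 4,
      m = Finsupp.single t.1 1 + Finsupp.single t.2.1 1 + Finsupp.single t.2.2 1 ∧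
        Full t.1.1 t.2.1.1 t.2.2.1 then
    ((eps3 h.choose.1.1 h.choose.2.1.1 h.choose.2.2.1 : ℕ) : k) else 0

theorem cast_mod_two (k : Type*) [Field k] [CharP k 2] {a b : ℕ} (h : a % 2 = b % 2) :
    ((a : ℕ) : k) = b := (CharP.cast_eq_iff_mod_eq k 2).2 h

theorem wval_of (k : Type*) [Field k] [CharP k 2] {g1 g2 g3 : Expo 12 4}
    (hg : Full g1.1 g2.1 g3.1) :
    wval k (Finsupp.single g1 1 + Finsupp.single g2 1 + Finsupp.single g3 1) =
      ((eps3 g1.1 g2.1 g3.1 : ℕ) : k) := by
  have h : ∃ t : Expo 12 4 × Expo 12 4 × Expo 12 4,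
      (Finsupp.single g1 1 + Finsupp.single g2 1 + Finsupp.single g3 1 : Expo 12 4 →₀ ℕ) =
        Finsupp.single t.1 1 + Finsupp.single t.2.1 1 + Finsupp.single t.2.2 1 ∧
        Full t.1.1 t.2.1.1 t.2.2.1 := ⟨(g1, g2, g3), rfl, hg⟩
  unfold wval
  rw [dif_pos h]
  exact cast_mod_two k (full_of_eq h.choose_spec.1 h.choose_spec.2).2

theorem wval_of_not (k : Type*) [Field k] {g1 g2 g3 : Expo 12 4}
    (hg : ¬ Full g1.1 g2.1 g3.1) :
    wval k (Finsupp.single g1 1 + Finsupp.single g2 1 + Finsupp.single g3 1) = 0 := by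
  unfold wval
  rw [dif_neg]
  rintro ⟨t, ht1, ht2⟩
  exact hg (full_of_eq ht1 ht2).1

theorem wval_add (k : Type*) [Field k] (m : Expo 12 4 →₀ ℕ) (hm : m ≠ 0)
    (g1 g2 g3 : Expo 12 4) :
    wval k (m + (Finsupp.single g1 1 + Finsupp.single g2 1 + Finsupp.single g3 1)) = 0 := by
  unfold wval
  rw [dif_neg]
  rintro ⟨t, ht1, _⟩
  apply hm
  have h1 := congrArg Finsupp.degree ht1
  simp only [map_add, Finsupp.degree_single] at h1
  have h2 : Finsupp.degree m = 0 := by omega
  exact (Finsupp.degree_eq_zero_iff m).1 h2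

/-- The functional. -/
noncomputable def psi (k : Type*) [Field k] : MvPolynomial (Expo 12 4) k →ₗ[k] k :=
  (MvPolynomial.basisMonomials (Expo 12 4) k).constr k (wval k)

theorem psi_monomial (k : Type*) [Field k] (m : Expo 12 4 →₀ ℕ) (c : k) :
    psi k (monomial m c) = c * wval k m := by
  have h1 : monomial m c = c • (MvPolynomial.basisMonomials (Expo 12 4) k) m := by
    simp [MvPolynomial.smul_monomial]
  rw [h1, map_smul, psi, Module.Basis.constr_basis, smul_eq_mul]

theorem psi_three (k : Type*) [Field k] (m : Expo 12 4 →₀ ℕ) (c : k) (g1 g2 g3 : Expo 12 4) :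
    psi k (monomial m c * (X g1 * X g2 * X g3)) =
      c * wval k (m + (Finsupp.single g1 1 + Finsupp.single g2 1 + Finsupp.single g3 1)) := by
  have h1 : (X g1 * X g2 * X g3 : MvPolynomial (Expo 12 4) k) =
      monomial (Finsupp.single g1 1 + Finsupp.single g2 1 + Finsupp.single g3 1) 1 := by
    simp only [X, monomial_mul, mul_one]
  rw [h1, monomial_mul, mul_one, psi_monomial]

/-- The value at a product of a monomial and a determinant. -/
theorem psi_det (k : Type*) [Field k] (m : Expo 12 4 →₀ ℕ) (c : k)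
    (M : Matrix (Fin 3) (Fin 3) (Expo 12 4)) :
    psi k (monomial m c * (Matrix.of fun i j => (X (M i j) : MvPolynomial (Expo 12 4) k)).det) =
      c * (wval k (m + (Finsupp.single (M 0 0) 1 + Finsupp.single (M 1 1) 1 +
          Finsupp.single (M 2 2) 1)) -
        wval k (m + (Finsupp.single (M 0 0) 1 + Finsupp.single (M 1 2) 1 +
          Finsupp.single (M 2 1) 1)) -
        wval k (m + (Finsupp.single (M 0 1) 1 + Finsupp.single (M 1 0) 1 +
          Finsupp.single (M 2 2) 1)) +
        wval k (m + (Finsupp.single (M 0 1) 1 + Finsupp.single (M 1 2) 1 +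
          Finsupp.single (M 2 0) 1)) +
        wval k (m + (Finsupp.single (M 0 2) 1 + Finsupp.single (M 1 0) 1 +
          Finsupp.single (M 2 1) 1)) -
        wval k (m + (Finsupp.single (M 0 2) 1 + Finsupp.single (M 1 1) 1 +
          Finsupp.single (M 2 0) 1))) := by
  rw [Matrix.det_fin_three]
  simp only [Matrix.of_apply, mul_add, mul_sub, map_add, map_sub, psi_three]

theorem psi_minor (k : Type*) [Field k] [CharP k 2] (h : 2 ≤ 4) (f : Fin 3 → Expo 12 2)
    (g : Fin 3 → Expo 12 (4 - 2)) (q : MvPolynomial (Expo 12 4) k) :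
    psi k (q * ((catMatrix k 12 4 2 h).submatrix f g).det) = 0 := by
  induction q using MvPolynomial.induction_on' with
  | add p q hp hq => rw [add_mul, map_add, hp, hq, add_zero]
  | monomial m c =>
    have h1 : (catMatrix k 12 4 2 h).submatrix f g =
        Matrix.of fun i j => (X ((fun i j => Expo.add h (f i) (g j)) i j) :
          MvPolynomial (Expo 12 4) k) := rfl
    rw [h1, psi_det k m c fun i j => Expo.add h (f i) (g j)]
    by_cases hm : m = 0
    · subst hm
      simp only [zero_add]
      by_cases hP : ∀ x, (f 0).1 x + (f 1).1 x + (f 2).1 x +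
          ((g 0).1 x + (g 1).1 x + (g 2).1 x) = 1
      · have F : ∀ a b c : Fin 3, (∀ x, (g a).1 x + (g b).1 x + (g c).1 x =
            (g 0).1 x + (g 1).1 x + (g 2).1 x) →
            wval k (Finsupp.single (Expo.add h (f 0) (g a)) 1 +
              Finsupp.single (Expo.add h (f 1) (g b)) 1 +
              Finsupp.single (Expo.add h (f 2) (g c)) 1) =
            ((eps3 (fun x => (f 0).1 x + (g a).1 x) (fun x => (f 1).1 x + (g b).1 x)
              (fun x => (f 2).1 x + (g c).1 x) : ℕ) : k) := by
          intro a b c habc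
          apply wval_of
          intro x
          have h2 := hP x
          have h3 := habc x
          change (f 0).1 x + (g a).1 x + ((f 1).1 x + (g b).1 x) + ((f 2).1 x + (g c).1 x) = 1
          omega
        rw [F 0 1 2 fun x => by omega, F 0 2 1 fun x => by omega, F 1 0 2 fun x => by omega,
          F 1 2 0 fun x => by omega, F 2 0 1 fun x => by omega, F 2 1 0 fun x => by omega]
        have s01 : inv12 (g 0).1 (g 1).1 + inv12 (g 1).1 (g 0).1 = 4 := by
          rw [inv12_swap _ _ fun x => mul_zero_of_add_le (by have := hP x; omega),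
            (g 0).2, (g 1).2]
        have s02 : inv12 (g 0).1 (g 2).1 + inv12 (g 2).1 (g 0).1 = 4 := by
          rw [inv12_swap _ _ fun x => mul_zero_of_add_le (by have := hP x; omega),
            (g 0).2, (g 2).2]
        have s12 : inv12 (g 1).1 (g 2).1 + inv12 (g 2).1 (g 1).1 = 4 := by
          rw [inv12_swap _ _ fun x => mul_zero_of_add_le (by have := hP x; omega),
            (g 1).2, (g 2).2]
        simp only [CharTwo.sub_eq_add]
        simp only [← Nat.cast_add]
        have hz : ∀ N : ℕ, N % 2 = 0 → c * (N : k) = 0 := by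
          intro N hN
          rw [(CharP.cast_eq_zero_iff k 2 N).2 (Nat.dvd_of_mod_eq_zero hN), mul_zero]
        apply hz
        simp only [eps3, inv12_add_left, inv12_add_right]
        omega
      · have F : ∀ a b c : Fin 3, (∀ x, (g a).1 x + (g b).1 x + (g c).1 x =
            (g 0).1 x + (g 1).1 x + (g 2).1 x) →
            wval k (Finsupp.single (Expo.add h (f 0) (g a)) 1 +
              Finsupp.single (Expo.add h (f 1) (g b)) 1 +
              Finsupp.single (Expo.add h (f 2) (g c)) 1) = 0 := by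
          intro a b c habc
          apply wval_of_not
          intro hF
          apply hP
          intro x
          have h2 := hF x
          have h3 := habc x
          change (f 0).1 x + (g a).1 x + ((f 1).1 x + (g b).1 x) + ((f 2).1 x + (g c).1 x) = 1
            at h2
          omega
        rw [F 0 1 2 fun x => by omega, F 0 2 1 fun x => by omega, F 1 0 2 fun x => by omega,
          F 1 2 0 fun x => by omega, F 2 0 1 fun x => by omega, F 2 1 0 fun x => by omega]
        simp
    · rw [wval_add k m hm, wval_add k m hm, wval_add k m hm, wval_add k m hm,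
        wval_add k m hm, wval_add k m hm]
      simp

theorem psi_kills (k : Type*) [Field k] [CharP k 2] (h : 2 ≤ 4)
    (p : MvPolynomial (Expo 12 4) k) (hp : p ∈ Minors k 12 4 2 h 2) :
    ∀ q, psi k (q * p) = 0 := by
  unfold Minors at hp
  induction hp using Submodule.span_induction with
  | mem x hx =>
    obtain ⟨f, g, rfl⟩ := hx
    intro q
    exact psi_minor k h f g q
  | zero => intro q; simp
  | add x y _ _ hx hy => intro q; rw [mul_add, map_add, hx, hy, add_zero]
  | smul a x _ hx => intro q; rw [smul_eq_mul, ← mul_assoc, hx]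

theorem mono4_val {n : ℕ} (a b c e : Fin n) :
    (mono4 a b c e).1 = fun x => (if a = x then 1 else 0) + (if b = x then 1 else 0) +
      (if c = x then 1 else 0) + (if e = x then 1 else 0) := by
  funext x
  change (Finsupp.single a 1 + Finsupp.single b 1 + Finsupp.single c 1 +
    Finsupp.single e 1 : Fin n →₀ ℕ) x = _
  simp only [Finsupp.add_apply, Finsupp.single_apply]

/-- The vector of four letters. -/
def vec4 (a b c e : Fin 12) : Fin 12 → ℕ := fun x => (if a = x then 1 else 0) +
  (if b = x then 1 else 0) + (if c = x then 1 else 0) + (if e = x then 1 else 0)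

instance (g1 g2 g3 : Fin 12 → ℕ) : Decidable (Full g1 g2 g3) :=
  inferInstanceAs (Decidable (∀ x, g1 x + g2 x + g3 x = 1))

theorem fTwo_not_mem (k : Type*) [Field k] [CharP k 2] (h : 2 ≤ 4) :
    fTwo k (n := 12) ![0, 1, 2] ![3, 6, 9] ![4, 7, 10] ![5, 8, 11] ∉ Minors k 12 4 2 h 2 := by
  intro hmem
  have h1 := psi_kills k h _ hmem (monomial 0 1)
  unfold fTwo at h1
  rw [psi_det k 0 1 fun i j => mono4 ((![0, 1, 2] : Fin 3 → Fin 12) i)
    ((![3, 6, 9] : Fin 3 → Fin 12) j) ((![4, 7, 10] : Fin 3 → Fin 12) j)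
    ((![5, 8, 11] : Fin 3 → Fin 12) j)] at h1
  simp only [zero_add, one_mul, Matrix.cons_val_zero, Matrix.cons_val_one, Matrix.cons_val] at h1
  have F : ∀ a b c e a' b' c' e' a'' b'' c'' e'' : Fin 12,
      Full (vec4 a b c e) (vec4 a' b' c' e') (vec4 a'' b'' c'' e'') →
      wval k (Finsupp.single (mono4 a b c e) 1 + Finsupp.single (mono4 a' b' c' e') 1 +
        Finsupp.single (mono4 a'' b'' c'' e'') 1) =
      ((eps3 (vec4 a b c e) (vec4 a' b' c' e') (vec4 a'' b'' c'' e'') : ℕ) : k) := by
    intro a b c e a' b' c' e' a'' b'' c'' e'' hF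
    have := wval_of k (g1 := mono4 a b c e) (g2 := mono4 a' b' c' e')
      (g3 := mono4 a'' b'' c'' e'') (by
        rw [mono4_val, mono4_val, mono4_val]
        exact hF)
    rw [this, mono4_val, mono4_val, mono4_val]
    rfl
  rw [F _ _ _ _ _ _ _ _ _ _ _ _ (by decide +kernel), F _ _ _ _ _ _ _ _ _ _ _ _ (by decide +kernel),
    F _ _ _ _ _ _ _ _ _ _ _ _ (by decide +kernel), F _ _ _ _ _ _ _ _ _ _ _ _ (by decide +kernel),
    F _ _ _ _ _ _ _ _ _ _ _ _ (by decide +kernel), F _ _ _ _ _ _ _ _ _ _ _ _ (by decide +kernel)]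
    at h1
  simp only [CharTwo.sub_eq_add] at h1
  simp only [← Nat.cast_add] at h1
  rw [CharP.cast_eq_zero_iff k 2] at h1
  revert h1
  decide +kernel

end Pool.Agent.CatP.Two
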