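import Pool.Agent.CatP.Two.Defs

/-! The `3 x 3` minors of the `(1,3)` pairing are killed by a power of each `2 x 2` determinant
of the `(2,2)` pairing with rows and columns `x x`, `x y`. -/

namespace Pool.Agent.CatP.Two

theorem locB {A B : Type*} [CommRing A] [CommRing B] [Algebra A B] (L : Submodule A B)
    (Z : B →ₗ[A] A) (H : H22 L Z) (x y : B) (hx : x ∈ L) (hy : y ∈ L)
    (a b c e : Fin 3 → B) (ha : ∀ i, a i ∈ L) (hb : ∀ i, b i ∈ L) (hc : ∀ i, c i ∈ L)
    (he : ∀ i, e i ∈ L) :
    (Z (x * x * (x * x)) * Z (x * y * (x * y)) - Z (x * x * (x * y)) ^ 2) ^ 6 *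
      (Matrix.of fun i j => Z (a i * (b j * c j * e j))).det = 0 := by
  -- abbreviations
  obtain ⟨p, hp⟩ : ∃ p, Z (x * x * (x * x)) = p := ⟨_, rfl⟩
  obtain ⟨q, hq⟩ : ∃ q, Z (x * x * (x * y)) = q := ⟨_, rfl⟩
  obtain ⟨s, hs⟩ : ∃ s, Z (x * y * (x * y)) = s := ⟨_, rfl⟩
  have hq' : Z (x * y * (x * x)) = q := by rw [mul_comm (x * y), hq]
  -- step 1: determinant with rows `xx, xy, r r'` and columns `xx, xy, c c'`
  have D : ∀ r r' c c' : B, r ∈ L → r' ∈ L → c ∈ L → c' ∈ L →
      (p * s - q ^ 2) * Z (r * r' * (c * c')) =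
        (Z (r * r' * (x * x)) * s - Z (r * r' * (x * y)) * q) * Z (x * x * (c * c')) +
        (p * Z (r * r' * (x * y)) - q * Z (r * r' * (x * x))) * Z (x * y * (c * c')) := by
    intro r r' c c' hr hr' hc hc'
    have h := H ![x, x, r] ![x, y, r'] ![x, x, c] ![x, y, c']
      (by intro i; fin_cases i <;> simpa) (by intro i; fin_cases i <;> simpa)
      (by intro i; fin_cases i <;> simpa) (by intro i; fin_cases i <;> simpa)
    rw [Matrix.det_fin_three] at h
    simp only [Matrix.of_apply, Matrix.cons_val_zero, Matrix.cons_val_one, Matrix.cons_val] at h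
    rw [hp, hq, hs, hq'] at h
    linear_combination h
  rw [hp, hq, hs]
  set δ := p * s - q ^ 2 with hδ
  -- the corrected letter
  set al : B → A := fun w => Z (x * w * (x * x)) * s - Z (x * w * (x * y)) * q with hal
  set be : B → A := fun w => p * Z (x * w * (x * y)) - q * Z (x * w * (x * x)) with hbe
  set w' : B → B := fun w => δ • w - al w • x - be w • y with hw'
  have hw'L : ∀ w ∈ L, w' w ∈ L := fun w hw =>
    L.sub_mem (L.sub_mem (L.smul_mem _ hw) (L.smul_mem _ hx)) (L.smul_mem _ hy)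
  have expand : ∀ w C : B, Z (w' w * C) = δ * Z (w * C) - al w * Z (x * C) - be w * Z (y * C) := by
    intro w C
    simp only [hw', sub_mul, smul_mul_assoc, map_sub, map_smul, smul_eq_mul]
  have S1 : ∀ w ∈ L, ∀ c ∈ L, ∀ c' ∈ L, Z (w' w * (x * (c * c'))) = 0 := by
    intro w hw c hc c' hc'
    rw [expand]
    have h := D x w c c' hx hw hc hc'
    have e1 : w * (x * (c * c')) = x * w * (c * c') := by ring
    have e2 : x * (x * (c * c')) = x * x * (c * c') := by ring
    have e3 : y * (x * (c * c')) = x * y * (c * c') := by ring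
    rw [e1, e2, e3]
    linear_combination h
  have S2 : ∀ w ∈ L, ∀ b ∈ L, ∀ c ∈ L, ∀ c' ∈ L, δ * Z (w' w * (b * c * c')) = 0 := by
    intro w hw b hb c hc c' hc'
    have h := D (w' w) b c c' (hw'L w hw) hb hc hc'
    have e1 : w' w * b * (x * x) = w' w * (x * (x * b)) := by ring
    have e2 : w' w * b * (x * y) = w' w * (x * (b * y)) := by ring
    have e3 : w' w * (b * c * c') = w' w * b * (c * c') := by ring
    rw [e1, e2, S1 w hw x hx b hb, S1 w hw b hb y hy] at h
    rw [e3]
    linear_combination h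
  have key : δ ^ 2 • (Matrix.of fun i j => Z (a i * (b j * c j * e j))) =
      Matrix.of fun i j : Fin 3 => δ * al (a i) * Z (x * (b j * c j * e j)) +
        δ * be (a i) * Z (y * (b j * c j * e j)) := by
    ext i j
    have h := S2 (a i) (ha i) (b j) (hb j) (c j) (hc j) (e j) (he j)
    rw [expand] at h
    simp only [Matrix.smul_apply, Matrix.of_apply, smul_eq_mul]
    linear_combination h
  have h6 : δ ^ 6 * (Matrix.of fun i j => Z (a i * (b j * c j * e j))).det =
      (δ ^ 2 • (Matrix.of fun i j => Z (a i * (b j * c j * e j)))).det := by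
    rw [Matrix.det_smul, Fintype.card_fin]
    ring
  rw [h6, key, Matrix.det_fin_three]
  simp only [Matrix.of_apply]
  ring

end Pool.Agent.CatP.Two
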