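import Pool.Agent.CatP.Two.LocA
import Pool.Agent.CatP.Two.LocB

/-! The minors of the `(1,3)` catalecticant lie in the saturation of the ideal of `3 x 3` minors
of the `(2,2)` catalecticant. -/

namespace Pool.Agent.CatP.Two

open MvPolynomial Pool.Agent.H91.Cat

section aux

variable {k : Type*} [Field k] {n : ℕ} {A : Type*} [CommRing A]

theorem h22_Zmap (h : 2 ≤ 4) (φ : MvPolynomial (Expo n 4) k →+* A)
    (hφ : ∀ q ∈ Minors k n 4 2 h 2, φ q = 0) :
    H22 (MvPolynomial.homogeneousSubmodule (Fin n) A 1) (Zmap φ) := by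
  intro r r' c c' hr hr' _ _
  refine det_Zmap_eq_zero h φ hφ (fun a => r a * r' a) (fun b => c b * c' b) fun a => ?_
  exact MvPolynomial.IsHomogeneous.mul ((mem_homogeneousSubmodule _ _).1 (hr a))
    ((mem_homogeneousSubmodule _ _).1 (hr' a))

theorem X_mem_hom (x : Fin n) :
    (X x : MvPolynomial (Fin n) A) ∈ MvPolynomial.homogeneousSubmodule (Fin n) A 1 :=
  (mem_homogeneousSubmodule _ _).2 (isHomogeneous_X _ _)

theorem Zmap_four' (φ : MvPolynomial (Expo n 4) k →+* A) (a b c e : Fin n) :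
    Zmap φ (X a * (X b * X c * X e)) = φ (X (mono4 a b c e)) := by
  rw [← Zmap_four]
  congr 1
  ring

theorem Zmap_two_two (φ : MvPolynomial (Expo n 4) k →+* A) (a b c e : Fin n) :
    Zmap φ (X a * X b * (X c * X e)) = φ (X (mono4 a b c e)) := by
  rw [← Zmap_four]
  congr 1
  ring

theorem map_fTwo (φ : MvPolynomial (Expo n 4) k →+* A) (a b c e : Fin 3 → Fin n) :
    φ (fTwo k a b c e) =
      (Matrix.of fun i j => Zmap φ (X (a i) * (X (b j) * X (c j) * X (e j)))).det := by
  rw [fTwo, RingHom.map_det]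
  congr 1
  ext i j
  rw [RingHom.mapMatrix_apply, Matrix.map_apply, Matrix.of_apply, Matrix.of_apply, Zmap_four']

theorem peel (m : Fin n → ℕ) (e : ℕ) (h : ∑ x, m x = e + 1) :
    ∃ (a : Fin n) (m' : Fin n → ℕ), (∀ x, m x = Finsupp.single a 1 x + m' x) ∧
      ∑ x, m' x = e := by
  obtain ⟨a, ha⟩ : ∃ a, m a ≠ 0 := by
    by_contra hcon
    push Not at hcon
    rw [Finset.sum_eq_zero (fun x _ => hcon x)] at h
    omega
  have h1 : ∀ x, m x = Finsupp.single a 1 x + (m x - Finsupp.single a 1 x) := by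
    intro x
    by_cases hx : x = a
    · subst hx
      rw [Finsupp.single_eq_same]
      omega
    · rw [Finsupp.single_eq_of_ne hx]
      omega
  refine ⟨a, fun x => m x - Finsupp.single a 1 x, h1, ?_⟩
  have h2 : ∑ x, m x = ∑ x, Finsupp.single a 1 x + ∑ x, (m x - Finsupp.single a 1 x) := by
    rw [← Finset.sum_add_distrib]
    exact Finset.sum_congr rfl fun x _ => h1 x
  have h3 : ∑ x, Finsupp.single a 1 x = 1 := by
    simp [Finsupp.single_apply]
  change ∑ x, (m x - Finsupp.single a 1 x) = e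
  omega

theorem exists_mono4 (γ : Expo n 4) : ∃ a b c e : Fin n, γ = mono4 a b c e := by
  obtain ⟨a, m1, h1, s1⟩ := peel γ.1 3 γ.2
  obtain ⟨b, m2, h2, s2⟩ := peel m1 2 s1
  obtain ⟨c, m3, h3, s3⟩ := peel m2 1 s2
  obtain ⟨e, m4, h4, s4⟩ := peel m3 0 s3
  refine ⟨a, b, c, e, Subtype.ext (funext fun x => ?_)⟩
  have h5 : m4 x = 0 := by
    have := Finset.single_le_sum (f := m4) (fun _ _ => Nat.zero_le _) (Finset.mem_univ x)
    omega
  change γ.1 x = (Finsupp.single a 1 + Finsupp.single b 1 + Finsupp.single c 1 +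
    Finsupp.single e 1 : Fin n →₀ ℕ) x
  rw [h1, h2, h3, h4, h5]
  simp only [Finsupp.add_apply]
  ring

end aux

/-- The elements which kill `f`. -/
def killer {A : Type*} [CommRing A] (f : A) : Ideal A where
  carrier := {g | g * f = 0}
  add_mem' := by
    intro a b ha hb
    rw [Set.mem_ofPred_eq] at *
    rw [add_mul, ha, hb, add_zero]
  zero_mem' := by
    rw [Set.mem_ofPred_eq, zero_mul]
  smul_mem' := by
    intro c x hx
    rw [Set.mem_ofPred_eq] at *
    rw [smul_eq_mul, mul_assoc, hx, mul_zero]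

theorem mem_killer {A : Type*} [CommRing A] {f g : A} : g ∈ killer f ↔ g * f = 0 := Iff.rfl

/-- Step (i). -/
theorem pow_four_mem {k : Type*} [Field k] {n : ℕ} {A : Type*} [CommRing A] (h : 2 ≤ 4)
    (φ : MvPolynomial (Expo n 4) k →+* A) (hφ : ∀ q ∈ Minors k n 4 2 h 2, φ q = 0)
    (a b c e : Fin 3 → Fin n) (x : Fin n) :
    φ (X (mono4 x x x x)) ∈ (killer (φ (fTwo k a b c e))).radical := by
  set u : A := φ (X (mono4 x x x x)) with hu
  set ι : A →+* Localization.Away u := algebraMap A (Localization.Away u) with hι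
  set φ' : MvPolynomial (Expo n 4) k →+* Localization.Away u := ι.comp φ with hφ'
  have hk : ∀ q ∈ Minors k n 4 2 h 2, φ' q = 0 := by
    intro q hq
    rw [hφ', RingHom.comp_apply, hφ q hq, map_zero]
  have hunit : IsUnit (ι u) := IsLocalization.Away.algebraMap_isUnit u
  obtain ⟨v, hv⟩ := hunit.exists_left_inv
  have hvu : IsUnit v := IsUnit.of_mul_eq_one _ hv
  set L := MvPolynomial.homogeneousSubmodule (Fin n) (Localization.Away u) 1 with hL
  have H := h22_Zmap h φ' hk
  have scale : ∀ f g : Fin 3 → MvPolynomial (Fin n) (Localization.Away u),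
      (Matrix.of fun i j => (v • Zmap φ') (f i * g j)).det =
        v ^ 3 * (Matrix.of fun i j => Zmap φ' (f i * g j)).det := by
    intro f g
    have h1 : (Matrix.of fun i j => (v • Zmap φ') (f i * g j)) =
        v • (Matrix.of fun i j => Zmap φ' (f i * g j)) := by
      ext i j
      rw [Matrix.smul_apply, Matrix.of_apply, Matrix.of_apply, LinearMap.smul_apply]
    rw [h1, Matrix.det_smul, Fintype.card_fin]
  have H' : H22 L (v • Zmap φ') := by
    intro r r' cc cc' hr hr' hc hc'
    rw [scale (fun i => r i * r' i) (fun j => cc j * cc' j), H r r' cc cc' hr hr' hc hc', mul_zero]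
  have hone : (v • Zmap φ') ((X x * X x * (X x * X x) :
      MvPolynomial (Fin n) (Localization.Away u))) = 1 := by
    rw [LinearMap.smul_apply, Zmap_two_two, smul_eq_mul, hφ', RingHom.comp_apply, ← hu, hv]
  have key := locA L (v • Zmap φ') H' (X x) (X_mem_hom x) hone
    (fun i => X (a i)) (fun i => X (b i)) (fun i => X (c i)) (fun i => X (e i))
    (fun i => X_mem_hom _) (fun i => X_mem_hom _) (fun i => X_mem_hom _) (fun i => X_mem_hom _)
  rw [scale (fun i => X (a i)) (fun j => X (b j) * X (c j) * X (e j)),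
    (hvu.pow 3).mul_right_eq_zero] at key
  rw [← map_fTwo, hφ', RingHom.comp_apply, hι] at key
  obtain ⟨⟨w, N, hw⟩, hN⟩ := (IsLocalization.map_eq_zero_iff (Submonoid.powers u)
    (Localization.Away u) _).1 key
  refine ⟨N, mem_killer.2 ?_⟩
  dsimp only at hN hw
  rw [hw]
  exact hN

/-- Step (ii). -/
theorem pow_three_mem {k : Type*} [Field k] {n : ℕ} {A : Type*} [CommRing A] (h : 2 ≤ 4)
    (φ : MvPolynomial (Expo n 4) k →+* A) (hφ : ∀ q ∈ Minors k n 4 2 h 2, φ q = 0)
    (a b c e : Fin 3 → Fin n) (x y : Fin n) :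
    φ (X (mono4 x x x y)) ∈ (killer (φ (fTwo k a b c e))).radical := by
  set J := (killer (φ (fTwo k a b c e))).radical with hJ
  have h4 : φ (X (mono4 x x x x)) ∈ J := pow_four_mem h φ hφ a b c e x
  have key := locB (MvPolynomial.homogeneousSubmodule (Fin n) A 1) (Zmap φ)
    (h22_Zmap h φ hφ) (X x) (X y) (X_mem_hom x) (X_mem_hom y)
    (fun i => X (a i)) (fun i => X (b i)) (fun i => X (c i)) (fun i => X (e i))
    (fun i => X_mem_hom _) (fun i => X_mem_hom _) (fun i => X_mem_hom _) (fun i => X_mem_hom _)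
  rw [← map_fTwo, Zmap_two_two, Zmap_two_two, Zmap_two_two] at key
  have hδ : φ (X (mono4 x x x x)) * φ (X (mono4 x y x y)) - φ (X (mono4 x x x y)) ^ 2 ∈ J :=
    ⟨6, mem_killer.2 key⟩
  have h2 : φ (X (mono4 x x x y)) ^ 2 ∈ J := by
    have h5 := J.sub_mem (J.mul_mem_right (φ (X (mono4 x y x y))) h4) hδ
    rwa [sub_sub_cancel] at h5
  exact (Ideal.radical_isRadical _) ⟨2, h2⟩

/-- Step (iii). -/
theorem two_two_mem {k : Type*} [Field k] {n : ℕ} {A : Type*} [CommRing A] (h : 2 ≤ 4)
    (φ : MvPolynomial (Expo n 4) k →+* A) (hφ : ∀ q ∈ Minors k n 4 2 h 2, φ q = 0)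
    (J : Ideal A) (hrad : J.IsRadical)
    (h4 : ∀ x, φ (X (mono4 x x x x)) ∈ J) (h3 : ∀ x y, φ (X (mono4 x x x y)) ∈ J)
    (x y : Fin n) : φ (X (mono4 x x y y)) ∈ J := by
  have hd := h22_Zmap h φ hφ ![X x, X y, X x] ![X x, X y, X y] ![X x, X y, X x]
    ![X x, X y, X y] (by intro i; fin_cases i <;> exact X_mem_hom _)
    (by intro i; fin_cases i <;> exact X_mem_hom _)
    (by intro i; fin_cases i <;> exact X_mem_hom _)
    (by intro i; fin_cases i <;> exact X_mem_hom _)
  rw [Matrix.det_fin_three] at hd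
  simp only [Matrix.of_apply, Matrix.cons_val_zero, Matrix.cons_val_one, Matrix.cons_val,
    Zmap_two_two] at hd
  have e1 : mono4 y y x x = mono4 x x y y := by
    refine Subtype.ext (funext fun z => ?_)
    simp only [mono4, toExpo, Finsupp.add_apply]
    ring
  have e2 : mono4 x y x y = mono4 x x y y := by
    refine Subtype.ext (funext fun z => ?_)
    simp only [mono4, toExpo, Finsupp.add_apply]
    ring
  have e3 : mono4 x y x x = mono4 x x x y := by
    refine Subtype.ext (funext fun z => ?_)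
    simp only [mono4, toExpo, Finsupp.add_apply]
    ring
  have e4 : mono4 x y y y = mono4 y y y x := by
    refine Subtype.ext (funext fun z => ?_)
    simp only [mono4, toExpo, Finsupp.add_apply]
    ring
  have e5 : mono4 y y x y = mono4 y y y x := by
    refine Subtype.ext (funext fun z => ?_)
    simp only [mono4, toExpo, Finsupp.add_apply]
    ring
  rw [e1, e2, e3, e4, e5] at hd
  refine hrad ⟨3, ?_⟩
  have h5 : φ (X (mono4 x x y y)) ^ 3 =
      φ (X (mono4 x x x x)) * (φ (X (mono4 y y y y)) * φ (X (mono4 x x y y)) -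
        φ (X (mono4 y y y x)) * φ (X (mono4 y y y x))) +
      φ (X (mono4 x x x y)) * (2 * φ (X (mono4 x x y y)) * φ (X (mono4 y y y x)) -
        φ (X (mono4 x x x y)) * φ (X (mono4 y y y y))) := by
    linear_combination -hd
  rw [h5]
  exact J.add_mem (J.mul_mem_right _ (h4 x)) (J.mul_mem_right _ (h3 x y))

/-- Step (iv). -/
theorem two_one_one_mem {k : Type*} [Field k] {n : ℕ} {A : Type*} [CommRing A] (h : 2 ≤ 4)
    (φ : MvPolynomial (Expo n 4) k →+* A) (hφ : ∀ q ∈ Minors k n 4 2 h 2, φ q = 0)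
    (J : Ideal A) (hrad : J.IsRadical)
    (h3 : ∀ x y, φ (X (mono4 x x x y)) ∈ J) (h2 : ∀ x y, φ (X (mono4 x x y y)) ∈ J)
    (x y w : Fin n) : φ (X (mono4 x x y w)) ∈ J := by
  have hd := h22_Zmap h φ hφ ![X x, X x, X x] ![X x, X y, X w] ![X y, X x, X x]
    ![X w, X w, X y] (by intro i; fin_cases i <;> exact X_mem_hom _)
    (by intro i; fin_cases i <;> exact X_mem_hom _)
    (by intro i; fin_cases i <;> exact X_mem_hom _)
    (by intro i; fin_cases i <;> exact X_mem_hom _)
  rw [Matrix.det_fin_three] at hd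
  simp only [Matrix.of_apply, Matrix.cons_val_zero, Matrix.cons_val_one, Matrix.cons_val,
    Zmap_two_two] at hd
  have e1 : mono4 x y x w = mono4 x x y w := by
    refine Subtype.ext (funext fun z => ?_)
    simp only [mono4, toExpo, Finsupp.add_apply]
    ring
  have e2 : mono4 x w x y = mono4 x x y w := by
    refine Subtype.ext (funext fun z => ?_)
    simp only [mono4, toExpo, Finsupp.add_apply]
    ring
  have e3 : mono4 x y x y = mono4 x x y y := by
    refine Subtype.ext (funext fun z => ?_)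
    simp only [mono4, toExpo, Finsupp.add_apply]
    ring
  have e4 : mono4 x w x w = mono4 x x w w := by
    refine Subtype.ext (funext fun z => ?_)
    simp only [mono4, toExpo, Finsupp.add_apply]
    ring
  rw [e1, e2, e3, e4] at hd
  refine hrad ⟨3, ?_⟩
  have h5 : φ (X (mono4 x x y w)) ^ 3 =
      φ (X (mono4 x x y y)) * (φ (X (mono4 x x y w)) * φ (X (mono4 x x w w)) -
        φ (X (mono4 x x x w)) * φ (X (mono4 x w y w))) +
      φ (X (mono4 x x x w)) * (φ (X (mono4 x y y w)) * φ (X (mono4 x x y w))) -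
      φ (X (mono4 x x x y)) * (φ (X (mono4 x y y w)) * φ (X (mono4 x x w w)) -
        φ (X (mono4 x x y w)) * φ (X (mono4 x w y w))) := by
    linear_combination hd
  rw [h5]
  exact J.sub_mem (J.add_mem (J.mul_mem_right _ (h2 x y)) (J.mul_mem_right _ (h3 x w)))
    (J.mul_mem_right _ (h3 x y))

/-- Step (v). -/
theorem all_mem {k : Type*} [Field k] {n : ℕ} {A : Type*} [CommRing A] (h : 2 ≤ 4)
    (φ : MvPolynomial (Expo n 4) k →+* A) (hφ : ∀ q ∈ Minors k n 4 2 h 2, φ q = 0)
    (J : Ideal A) (hrad : J.IsRadical)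
    (h1 : ∀ x y w, φ (X (mono4 x x y w)) ∈ J)
    (a b c e : Fin n) : φ (X (mono4 a b c e)) ∈ J := by
  have hd := h22_Zmap h φ hφ ![X a, X a, X b] ![X b, X c, X c] ![X c, X b, X a]
    ![X e, X e, X e] (by intro i; fin_cases i <;> exact X_mem_hom _)
    (by intro i; fin_cases i <;> exact X_mem_hom _)
    (by intro i; fin_cases i <;> exact X_mem_hom _)
    (by intro i; fin_cases i <;> exact X_mem_hom _)
  rw [Matrix.det_fin_three] at hd
  simp only [Matrix.of_apply, Matrix.cons_val_zero, Matrix.cons_val_one, Matrix.cons_val,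
    Zmap_two_two] at hd
  have e1 : mono4 a b b e = mono4 b b a e := by
    refine Subtype.ext (funext fun z => ?_)
    simp only [mono4, toExpo, Finsupp.add_apply]
    ring
  have e2 : mono4 a b a e = mono4 a a b e := by
    refine Subtype.ext (funext fun z => ?_)
    simp only [mono4, toExpo, Finsupp.add_apply]
    ring
  have e3 : mono4 a c c e = mono4 c c a e := by
    refine Subtype.ext (funext fun z => ?_)
    simp only [mono4, toExpo, Finsupp.add_apply]
    ring
  have e4 : mono4 a c b e = mono4 a b c e := by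
    refine Subtype.ext (funext fun z => ?_)
    simp only [mono4, toExpo, Finsupp.add_apply]
    ring
  have e5 : mono4 a c a e = mono4 a a c e := by
    refine Subtype.ext (funext fun z => ?_)
    simp only [mono4, toExpo, Finsupp.add_apply]
    ring
  have e6 : mono4 b c c e = mono4 c c b e := by
    refine Subtype.ext (funext fun z => ?_)
    simp only [mono4, toExpo, Finsupp.add_apply]
    ring
  have e7 : mono4 b c b e = mono4 b b c e := by
    refine Subtype.ext (funext fun z => ?_)
    simp only [mono4, toExpo, Finsupp.add_apply]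
    ring
  have e8 : mono4 b c a e = mono4 a b c e := by
    refine Subtype.ext (funext fun z => ?_)
    simp only [mono4, toExpo, Finsupp.add_apply]
    ring
  rw [e1, e2, e3, e4, e5, e6, e7, e8] at hd
  refine hrad ⟨3, ?_⟩
  have h5 : φ (X (mono4 a b c e)) ^ 3 =
      φ (X (mono4 a a c e)) * (φ (X (mono4 a b c e)) * φ (X (mono4 b b c e)) -
        φ (X (mono4 b b a e)) * φ (X (mono4 c c b e))) +
      φ (X (mono4 b b a e)) * (φ (X (mono4 c c a e)) * φ (X (mono4 a b c e))) -
      φ (X (mono4 a a b e)) * (φ (X (mono4 c c a e)) * φ (X (mono4 b b c e)) -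
        φ (X (mono4 a b c e)) * φ (X (mono4 c c b e))) := by
    linear_combination hd
  rw [h5]
  exact J.sub_mem (J.add_mem (J.mul_mem_right _ (h1 a c e)) (J.mul_mem_right _ (h1 b a e)))
    (J.mul_mem_right _ (h1 a b e))

theorem fTwo_sat (k : Type*) [Field k] {n : ℕ} (h : 2 ≤ 4) (a b c e : Fin 3 → Fin n)
    (γ : Expo n 4) : ∃ N : ℕ, X γ ^ N * fTwo k a b c e ∈ Minors k n 4 2 h 2 := by
  set I := Minors k n 4 2 h 2 with hI
  set φ := Ideal.Quotient.mk I with hφdef
  have hφ : ∀ q ∈ Minors k n 4 2 h 2, φ q = 0 := fun q hq => Ideal.Quotient.eq_zero_iff_mem.2 hq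
  set J := (killer (φ (fTwo k a b c e))).radical with hJ
  have hrad : J.IsRadical := Ideal.radical_isRadical _
  have h4 : ∀ x, φ (X (mono4 x x x x)) ∈ J := pow_four_mem h φ hφ a b c e
  have h3 : ∀ x y, φ (X (mono4 x x x y)) ∈ J := pow_three_mem h φ hφ a b c e
  have h2 : ∀ x y, φ (X (mono4 x x y y)) ∈ J := two_two_mem h φ hφ J hrad h4 h3
  have h1 : ∀ x y w, φ (X (mono4 x x y w)) ∈ J := two_one_one_mem h φ hφ J hrad h3 h2
  obtain ⟨a', b', c', e', rfl⟩ := exists_mono4 γ
  obtain ⟨N, hN⟩ := all_mem h φ hφ J hrad h1 a' b' c' e'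
  refine ⟨N, Ideal.Quotient.eq_zero_iff_mem.1 ?_⟩
  rw [← hφdef, map_mul, map_pow]
  exact mem_killer.1 hN

end Pool.Agent.CatP.Two
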