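import Pool.Agent.CatP.Zmap

/-! Definitions for the characteristic two part. -/

namespace Pool.Agent.CatP.Two

open MvPolynomial Pool.Agent.H91.Cat

/-- All `3 x 3` determinants of the pairing of products of two elements of `L` vanish. -/
def H22 {A B : Type*} [CommRing A] [CommRing B] [Algebra A B] (L : Submodule A B)
    (Z : B →ₗ[A] A) : Prop :=
  ∀ r r' c c' : Fin 3 → B, (∀ i, r i ∈ L) → (∀ i, r' i ∈ L) → (∀ i, c i ∈ L) →
    (∀ i, c' i ∈ L) → (Matrix.of fun i j => Z (r i * r' i * (c j * c' j))).det = 0

/-- The exponent vector of a product of four variables. -/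
noncomputable def mono4 {n : ℕ} (a b c e : Fin n) : Expo n 4 :=
  toExpo (Finsupp.single a 1 + Finsupp.single b 1 + Finsupp.single c 1 + Finsupp.single e 1)
    (by simp [Finset.sum_add_distrib, Finsupp.single_apply])

/-- The `3 x 3` minor of the `(1,3)` catalecticant matrix with rows `a i` and columns
`b j * c j * e j`. -/
noncomputable def fTwo (k : Type*) [Field k] {n : ℕ} (a b c e : Fin 3 → Fin n) :
    MvPolynomial (Expo n 4) k :=
  (Matrix.of fun i j => X (mono4 (a i) (b j) (c j) (e j))).det

theorem Zmap_four {k : Type*} [Field k] {n : ℕ} {A : Type*} [CommRing A]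
    (φ : MvPolynomial (Expo n 4) k →+* A) (a b c e : Fin n) :
    Zmap φ (X a * X b * X c * X e) = φ (X (mono4 a b c e)) := by
  have h1 : (X a * X b * X c * X e : MvPolynomial (Fin n) A) =
      monomial (Finsupp.single a 1 + Finsupp.single b 1 + Finsupp.single c 1 +
        Finsupp.single e 1) 1 := by
    simp only [X, monomial_mul, mul_one]
  have h2 : ∑ x, (Finsupp.single a 1 + Finsupp.single b 1 + Finsupp.single c 1 +
        Finsupp.single e 1 : Fin n →₀ ℕ) x = 4 := by
    simp [Finset.sum_add_distrib, Finsupp.single_apply]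
  rw [h1, Zmap_monomial, one_mul, zval, dif_pos h2]
  rfl

end Pool.Agent.CatP.Two
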