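import Pool.Agent.CatP.Two.Defs

/-! Local form at a point where `Z (x ^ 4) = 1`. -/

namespace Pool.Agent.CatP.Two

section aux

variable {A B : Type*} [CommRing A] [CommRing B] [Algebra A B] {L : Submodule A B}
  {Z : B →ₗ[A] A}

/-- The `3 x 3` determinant with first row and column `x x`. -/
theorem keyD (H : H22 L Z) {x : B} (hx : x ∈ L) (h1 : Z (x * x * (x * x)) = 1)
    {r r' s s' c c' d d' : B} (hr : r ∈ L) (hr' : r' ∈ L) (hs : s ∈ L) (hs' : s' ∈ L)
    (hc : c ∈ L) (hc' : c' ∈ L) (hd : d ∈ L) (hd' : d' ∈ L) :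
    (Z (r * r' * (c * c')) - Z (x * x * (r * r')) * Z (x * x * (c * c'))) *
        (Z (s * s' * (d * d')) - Z (x * x * (s * s')) * Z (x * x * (d * d'))) =
      (Z (r * r' * (d * d')) - Z (x * x * (r * r')) * Z (x * x * (d * d'))) *
        (Z (s * s' * (c * c')) - Z (x * x * (s * s')) * Z (x * x * (c * c'))) := by
  have h := H ![x, r, s] ![x, r', s'] ![x, c, d] ![x, c', d']
    (by intro i; fin_cases i <;> assumption) (by intro i; fin_cases i <;> assumption)
    (by intro i; fin_cases i <;> assumption) (by intro i; fin_cases i <;> assumption)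
  rw [Matrix.det_fin_three] at h
  simp only [Matrix.of_apply, Matrix.cons_val_zero, Matrix.cons_val_one, Matrix.cons_val_two,
    Matrix.cons_val, Matrix.head_cons, Matrix.tail_cons] at h
  have e1 : Z (r * r' * (x * x)) = Z (x * x * (r * r')) := by rw [mul_comm]
  have e2 : Z (s * s' * (x * x)) = Z (x * x * (s * s')) := by rw [mul_comm]
  rw [h1, e1, e2] at h
  linear_combination h

/-- membership in `L0`. -/
def M0 (L : Submodule A B) (Z : B →ₗ[A] A) (x w : B) : Prop := w ∈ L ∧ Z (x * x * (x * w)) = 0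

theorem r1 (H : H22 L Z) {x : B} (hx : x ∈ L) (h1 : Z (x * x * (x * x)) = 1)
    {i j k l : B} (hi : M0 L Z x i) (hj : M0 L Z x j) (hk : M0 L Z x k) (hl : M0 L Z x l) :
    Z (x * x * (i * j)) * Z (x * x * (k * l)) = Z (x * x * (i * l)) * Z (x * x * (k * j)) := by
  have h := keyD H hx h1 hx hi.1 hx hk.1 hx hj.1 hx hl.1
  simp only [hi.2, hj.2, hk.2, hl.2, mul_zero, sub_zero] at h
  linear_combination (norm := ring_nf) h

theorem r2 (H : H22 L Z) {x : B} (hx : x ∈ L) (h1 : Z (x * x * (x * x)) = 1)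
    {i j k a b : B} (hi : M0 L Z x i) (hj : M0 L Z x j) (hk : M0 L Z x k) (ha : M0 L Z x a)
    (hb : M0 L Z x b) :
    Z (x * x * (i * j)) * Z (x * k * (a * b)) = Z (x * x * (k * j)) * Z (x * i * (a * b)) := by
  have h := keyD H hx h1 hx hi.1 hx hk.1 hx hj.1 ha.1 hb.1
  simp only [hi.2, hj.2, hk.2, mul_zero, zero_mul, sub_zero] at h
  linear_combination (norm := ring_nf) h

theorem r3 (H : H22 L Z) {x : B} (hx : x ∈ L) (h1 : Z (x * x * (x * x)) = 1)
    {i j a b c d : B} (hi : M0 L Z x i) (hj : M0 L Z x j) (ha : M0 L Z x a)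
    (hb : M0 L Z x b) (hc : M0 L Z x c) (hd : M0 L Z x d) :
    Z (x * x * (i * j)) * (Z (a * b * (c * d)) - Z (x * x * (a * b)) * Z (x * x * (c * d))) =
      Z (x * i * (c * d)) * Z (x * a * (b * j)) := by
  have h := keyD H hx h1 hx hi.1 ha.1 hb.1 hx hj.1 hc.1 hd.1
  simp only [hi.2, hj.2, mul_zero, zero_mul, sub_zero] at h
  linear_combination (norm := ring_nf) h

theorem r4 (H : H22 L Z) {x : B} (hx : x ∈ L) (h1 : Z (x * x * (x * x)) = 1)
    {i j a b c d : B} (hi : M0 L Z x i) (hj : M0 L Z x j) (ha : M0 L Z x a)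
    (hb : M0 L Z x b) (hc : M0 L Z x c) (hd : M0 L Z x d) :
    Z (x * i * (a * b)) * Z (x * j * (c * d)) = Z (x * i * (c * d)) * Z (x * j * (a * b)) := by
  have h := keyD H hx h1 hx hi.1 hx hj.1 ha.1 hb.1 hc.1 hd.1
  simp only [hi.2, hj.2, mul_zero, zero_mul, sub_zero] at h
  linear_combination (norm := ring_nf) h

theorem r5 (H : H22 L Z) {x : B} (hx : x ∈ L) (h1 : Z (x * x * (x * x)) = 1)
    {i a b c d e f : B} (hi : M0 L Z x i) (ha : M0 L Z x a) (hb : M0 L Z x b)
    (hc : M0 L Z x c) (hd : M0 L Z x d) (he : M0 L Z x e) (hf : M0 L Z x f) :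
    Z (x * i * (a * b)) * Z (c * d * (e * f)) = Z (x * i * (e * f)) * Z (c * d * (a * b)) := by
  have h := keyD H hx h1 hx hi.1 hc.1 hd.1 ha.1 hb.1 he.1 hf.1
  simp only [hi.2, zero_mul, sub_zero] at h
  -- `c(i,a,b) q(e,f) = c(i,e,f) q(a,b)`
  have h2 := r2 H hx h1 he hf ha hi hb
  have h3 := r2 H hx h1 hf ha hb he hi
  linear_combination (norm := ring_nf) h + Z (x * x * (c * d)) * h2 + Z (x * x * (c * d)) * h3

theorem r7 (H : H22 L Z) {x : B} (hx : x ∈ L) (h1 : Z (x * x * (x * x)) = 1)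
    {c d e f g k : B} (hc : M0 L Z x c) (hd : M0 L Z x d) (he : M0 L Z x e)
    (hf : M0 L Z x f) (hg : M0 L Z x g) (hk : M0 L Z x k) :
    Z (x * x * (e * f)) * Z (c * d * (g * k)) = Z (x * x * (g * k)) * Z (c * d * (e * f)) := by
  have h2 := r3 H hx h1 he hf hc hd hg hk
  have h3 := r3 H hx h1 hg hk hc hd he hf
  have h4 := r4 H hx h1 hf hk he hg hc hd
  linear_combination (norm := ring_nf) h2 - h3 - h4

theorem r6 (H : H22 L Z) {x : B} (hx : x ∈ L) (h1 : Z (x * x * (x * x)) = 1)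
    {a b c d e f g k : B} (ha : M0 L Z x a) (hb : M0 L Z x b) (hc : M0 L Z x c)
    (hd : M0 L Z x d) (he : M0 L Z x e) (hf : M0 L Z x f) (hg : M0 L Z x g) (hk : M0 L Z x k) :
    Z (a * b * (e * f)) * Z (c * d * (g * k)) = Z (a * b * (g * k)) * Z (c * d * (e * f)) := by
  have h := keyD H hx h1 ha.1 hb.1 hc.1 hd.1 he.1 hf.1 hg.1 hk.1
  have h2 := r7 H hx h1 hc hd he hf hg hk
  have h3 := r7 H hx h1 ha hb hg hk he hf
  linear_combination h + Z (x * x * (a * b)) * h2 + Z (x * x * (c * d)) * h3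

theorem r13 (H : H22 L Z) {x : B} (hx : x ∈ L) (h1 : Z (x * x * (x * x)) = 1)
    {i j k a b c : B} (hi : M0 L Z x i) (hj : M0 L Z x j) (hk : M0 L Z x k) (ha : M0 L Z x a)
    (hb : M0 L Z x b) (hc : M0 L Z x c) :
    Z (x * x * (i * j)) * Z (k * a * (b * c)) = Z (x * x * (k * j)) * Z (i * a * (b * c)) := by
  have h2 := r3 H hx h1 hi hj hk ha hb hc
  have h3 := r3 H hx h1 hk hj hi ha hb hc
  have h4 := r1 H hx h1 hi hj hk ha
  have h5 := r4 H hx h1 hi hk hb hc ha hj
  linear_combination (norm := ring_nf) h2 - h3 + Z (x * x * (b * c)) * h4 + h5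

theorem r23 (H : H22 L Z) {x : B} (hx : x ∈ L) (h1 : Z (x * x * (x * x)) = 1)
    {i k a b c d e : B} (hi : M0 L Z x i) (hk : M0 L Z x k) (ha : M0 L Z x a)
    (hb : M0 L Z x b) (hc : M0 L Z x c) (hd : M0 L Z x d) (he : M0 L Z x e) :
    Z (x * i * (a * b)) * Z (k * c * (d * e)) = Z (x * k * (a * b)) * Z (i * c * (d * e)) := by
  have h2 := r5 H hx h1 ha hb hi hk he hc hd
  have h3 := r5 H hx h1 ha hc hd hi he hb hk
  linear_combination (norm := ring_nf) h2 + h3

theorem r33 (H : H22 L Z) {x : B} (hx : x ∈ L) (h1 : Z (x * x * (x * x)) = 1)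
    {i k a b c d e f : B} (hi : M0 L Z x i) (hk : M0 L Z x k) (ha : M0 L Z x a)
    (hb : M0 L Z x b) (hc : M0 L Z x c) (hd : M0 L Z x d) (he : M0 L Z x e)
    (hf : M0 L Z x f) :
    Z (i * a * (b * c)) * Z (k * d * (e * f)) = Z (k * a * (b * c)) * Z (i * d * (e * f)) := by
  have h2 := r6 H hx h1 ha hb hk hf hc hi hd he
  have h3 := r6 H hx h1 ha hb hi hf hd he hc hk
  linear_combination (norm := ring_nf) h2 + h3

/-- The basic products. -/
inductive Bas (L : Submodule A B) (Z : B →ₗ[A] A) (x : B) : B → Prop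
  | t0 : Bas L Z x (x * (x * x))
  | t1 {a : B} (ha : M0 L Z x a) : Bas L Z x (x * (x * a))
  | t2 {a b : B} (ha : M0 L Z x a) (hb : M0 L Z x b) : Bas L Z x (x * (a * b))
  | t3 {a b c : B} (ha : M0 L Z x a) (hb : M0 L Z x b) (hc : M0 L Z x c) :
      Bas L Z x (a * (b * c))

theorem bas_bas (H : H22 L Z) {x : B} (hx : x ∈ L) (h1 : Z (x * x * (x * x)) = 1)
    {y y' : B} (hy : M0 L Z x y) (hy' : M0 L Z x y') {C C' : B} (hC : Bas L Z x C)
    (hC' : Bas L Z x C') : Z (y * C) * Z (y' * C') = Z (y * C') * Z (y' * C) := by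
  have z0 : ∀ {w : B}, M0 L Z x w → Z (w * (x * (x * x))) = 0 := fun hw => by
    rw [← hw.2]
    congr 1
    ring
  cases hC with
  | t0 => rw [z0 hy, z0 hy', zero_mul, mul_zero]
  | t1 ha =>
    cases hC' with
    | t0 => rw [z0 hy, z0 hy', zero_mul, mul_zero]
    | t1 hb => linear_combination (norm := ring_nf) r1 H hx h1 hy ha hy' hb
    | t2 hb hc => linear_combination (norm := ring_nf) r2 H hx h1 hy ha hy' hb hc
    | t3 hb hc hd => linear_combination (norm := ring_nf) r13 H hx h1 hy ha hy' hb hc hd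
  | t2 ha hb =>
    cases hC' with
    | t0 => rw [z0 hy, z0 hy', zero_mul, mul_zero]
    | t1 hc => linear_combination (norm := ring_nf) -r2 H hx h1 hy hc hy' ha hb
    | t2 hc hd => linear_combination (norm := ring_nf) r4 H hx h1 hy hy' ha hb hc hd
    | t3 hc hd he => linear_combination (norm := ring_nf) r23 H hx h1 hy hy' ha hb hc hd he
  | t3 ha hb hc =>
    cases hC' with
    | t0 => rw [z0 hy, z0 hy', zero_mul, mul_zero]
    | t1 hd => linear_combination (norm := ring_nf) -r13 H hx h1 hy hd hy' ha hb hc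
    | t2 hd he => linear_combination (norm := ring_nf) -r23 H hx h1 hy hy' hd he ha hb hc
    | t3 hd he hf => linear_combination (norm := ring_nf) r33 H hx h1 hy hy' ha hb hc hd he hf

/-- The relation for products in the span. -/
theorem span_span (H : H22 L Z) {x : B} (hx : x ∈ L) (h1 : Z (x * x * (x * x)) = 1)
    {y y' : B} (hy : M0 L Z x y) (hy' : M0 L Z x y') {C C' : B}
    (hC : C ∈ Submodule.span A {w | Bas L Z x w})
    (hC' : C' ∈ Submodule.span A {w | Bas L Z x w}) :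
    Z (y * C) * Z (y' * C') = Z (y * C') * Z (y' * C) := by
  induction hC using Submodule.span_induction with
  | mem C hC =>
    induction hC' using Submodule.span_induction with
    | mem C' hC' => exact bas_bas H hx h1 hy hy' hC hC'
    | zero => simp
    | add u v _ _ hu hv =>
      rw [mul_add, mul_add, map_add, map_add]
      linear_combination hu + hv
    | smul t u _ hu =>
      rw [mul_smul_comm, mul_smul_comm, map_smul, map_smul, smul_eq_mul, smul_eq_mul]
      linear_combination t * hu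
  | zero => simp
  | add u v _ _ hu hv =>
    rw [mul_add, mul_add, map_add, map_add]
    linear_combination hu + hv
  | smul t u _ hu =>
    rw [mul_smul_comm, mul_smul_comm, map_smul, map_smul, smul_eq_mul, smul_eq_mul]
    linear_combination t * hu

/-- Decomposition of an element of `L`. -/
theorem exists_dec {x : B} (hx : x ∈ L) (h1 : Z (x * x * (x * x)) = 1) {w : B} (hw : w ∈ L) :
    ∃ y : B, ∃ t : A, M0 L Z x y ∧ w = y + t • x := by
  refine ⟨w - Z (x * x * (x * w)) • x, Z (x * x * (x * w)),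
    ⟨sub_mem hw (L.smul_mem _ hx), ?_⟩, by abel⟩
  rw [mul_sub, mul_sub, map_sub, mul_smul_comm, mul_smul_comm, map_smul, h1, smul_eq_mul,
    mul_one, sub_self]

theorem mem_span {x : B} (hx : x ∈ L) (h1 : Z (x * x * (x * x)) = 1) {b c e : B}
    (hb : b ∈ L) (hc : c ∈ L) (he : e ∈ L) :
    b * c * e ∈ Submodule.span A {w | Bas L Z x w} := by
  obtain ⟨b0, β, hb0, rfl⟩ := exists_dec hx h1 hb
  obtain ⟨c0, γ, hc0, rfl⟩ := exists_dec hx h1 hc
  obtain ⟨e0, ε, he0, rfl⟩ := exists_dec hx h1 he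
  have e : (b0 + β • x) * (c0 + γ • x) * (e0 + ε • x) =
      b0 * (c0 * e0) + ε • (x * (b0 * c0)) + γ • (x * (b0 * e0)) + (γ * ε) • (x * (x * b0)) +
        β • (x * (c0 * e0)) + (β * ε) • (x * (x * c0)) + (β * γ) • (x * (x * e0)) +
        (β * γ * ε) • (x * (x * x)) := by
    simp only [Algebra.smul_def, map_mul]
    ring
  rw [e]
  have g : ∀ {w : B}, Bas L Z x w → w ∈ Submodule.span A {w | Bas L Z x w} := fun hw =>
    Submodule.subset_span hw
  refine add_mem (add_mem (add_mem (add_mem (add_mem (add_mem (add_mem ?_ ?_) ?_) ?_) ?_) ?_)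
    ?_) ?_
  · exact g (.t3 hb0 hc0 he0)
  · exact Submodule.smul_mem _ _ (g (.t2 hb0 hc0))
  · exact Submodule.smul_mem _ _ (g (.t2 hb0 he0))
  · exact Submodule.smul_mem _ _ (g (.t1 hb0))
  · exact Submodule.smul_mem _ _ (g (.t2 hc0 he0))
  · exact Submodule.smul_mem _ _ (g (.t1 hc0))
  · exact Submodule.smul_mem _ _ (g (.t1 he0))
  · exact Submodule.smul_mem _ _ (g .t0)

end aux

/-- If `Z (x ^ 4) = 1` then the `3 x 3` minors of the `(1,3)` pairing vanish. -/
theorem locA {A B : Type*} [CommRing A] [CommRing B] [Algebra A B] (L : Submodule A B)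
    (Z : B →ₗ[A] A) (H : H22 L Z) (x : B) (hx : x ∈ L) (h1 : Z (x * x * (x * x)) = 1)
    (a b c e : Fin 3 → B) (ha : ∀ i, a i ∈ L) (hb : ∀ i, b i ∈ L) (hc : ∀ i, c i ∈ L)
    (he : ∀ i, e i ∈ L) : (Matrix.of fun i j => Z (a i * (b j * c j * e j))).det = 0 := by
  choose y t hy hay using fun i => exists_dec hx h1 (ha i)
  set P : Fin 3 → Fin 3 → A := fun i j => Z (y i * (b j * c j * e j)) with hP
  set be : Fin 3 → A := fun j => Z (x * (b j * c j * e j)) with hbe
  have hS : ∀ i k j l, P i j * P k l = P i l * P k j := fun i k j l =>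
    span_span H hx h1 (hy i) (hy k) (mem_span hx h1 (hb j) (hc j) (he j))
      (mem_span hx h1 (hb l) (hc l) (he l))
  have hM : ∀ i j, Z (a i * (b j * c j * e j)) = P i j + t i * be j := fun i j => by
    rw [hay i, add_mul, map_add, smul_mul_assoc, map_smul, smul_eq_mul]
  rw [Matrix.det_fin_three]
  simp only [Matrix.of_apply, hM]
  linear_combination P 0 0 * hS 1 2 1 2 - P 0 1 * hS 1 2 0 2 + P 0 2 * hS 1 2 0 1 +
    t 0 * be 0 * hS 1 2 1 2 - t 0 * be 1 * hS 1 2 0 2 + t 0 * be 2 * hS 1 2 0 1 -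
    t 1 * be 0 * hS 0 2 1 2 + t 1 * be 1 * hS 0 2 0 2 - t 1 * be 2 * hS 0 2 0 1 +
    t 2 * be 0 * hS 0 1 1 2 - t 2 * be 1 * hS 0 1 0 2 + t 2 * be 2 * hS 0 1 0 1

end Pool.Agent.CatP.Two
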